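import Pool.Agent.T2h25.Lac.One

/-!
# Lacunary cosine sums: crossings of a level
-/

open MeasureTheory Set Filter Topology

namespace Pool.Agent.T2h25

/-- every point near `x` is relatively close to the set `A` -/
lemma thick {A : Set ℝ} (hA : MeasurableSet A) {x : ℝ}
    (h : Tendsto (fun r => volume (A ∩ Metric.closedBall x r) / volume (Metric.closedBall x r))
      (𝓝[>] 0) (𝓝 1)) {c : ℝ} (hc : 0 < c) :
    ∃ r₀ > 0, ∀ r : ℝ, 0 < r → r < r₀ → ∀ y, |y - x| ≤ r → ∃ z ∈ A, |z - y| ≤ c * r := by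
  obtain ⟨c', hc', h1, h2⟩ : ∃ c' > 0, c' ≤ c ∧ c' ≤ 1 :=
    ⟨min c 1, lt_min hc one_pos, min_le_left _ _, min_le_right _ _⟩
  obtain ⟨r₀, hr₀, hd⟩ := dens hA h (η := c' / 4) (by positivity)
  refine ⟨r₀, hr₀, fun r hr hr' y hy => ?_⟩
  by_contra hcon
  push Not at hcon
  have hd' := hd r hr hr'
  rw [Real.closedBall_eq_Icc] at hd'
  rw [abs_le] at hy
  have hcr : c' * r ≤ c * r := mul_le_mul_of_nonneg_right h1 hr.le
  have hcr1 : c' * r ≤ r := by nlinarith
  have hcr0 : 0 < c' * r := by positivity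
  -- an interval of length `c' r` in the complement
  obtain ⟨u, hu1, hu2, hu3⟩ : ∃ u, x - r ≤ u ∧ u + c' * r ≤ x + r ∧
      ∀ z ∈ Icc u (u + c' * r), |z - y| ≤ c * r := by
    rcases le_total x y with hxy | hxy
    · refine ⟨y - c' * r, by linarith, by linarith, fun z hz => ?_⟩
      rw [abs_le]; constructor <;> linarith [hz.1, hz.2]
    · refine ⟨y, by linarith, by linarith, fun z hz => ?_⟩
      rw [abs_le]; constructor <;> linarith [hz.1, hz.2]
  have hsub : Icc u (u + c' * r) ⊆ Icc (x - r) (x + r) \ A := by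
    intro z hz
    refine ⟨⟨by linarith [hz.1], by linarith [hz.2]⟩, fun hzA => ?_⟩
    have := hcon z hzA
    have := hu3 z hz
    linarith
  have hfin : volume (Icc (x - r) (x + r) \ A) ≠ ⊤ :=
    ne_top_of_le_ne_top (by simp) (measure_mono (sdiff_subset : _ ⊆ Icc (x - r) (x + r)))
  have h3 := ENNReal.toReal_mono hfin (measure_mono hsub)
  rw [Real.volume_Icc, ENNReal.toReal_ofReal (by linarith)] at h3
  nlinarith

/-- a function whose values are far from `ξ` on a relatively dense set does not cross `ξ` -/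
lemma below {f : ℝ → ℝ} (hf : Continuous f) {A : Set ℝ} {x r c l ε ξ : ℝ}
    (hl : ∀ y z, |f y - f z| ≤ l * |y - z|) (hl0 : 0 ≤ l) (hlc : l * (c * r) ≤ ε / 2)
    (hε : 0 < ε) (hr : 0 < r)
    (ht : ∀ y, |y - x| ≤ r → ∃ z ∈ A, |z - y| ≤ c * r) (hA : ∀ z ∈ A, ε ≤ |f z - ξ|)
    (hx : f x < ξ) : ∀ y ∈ Icc (x - r) (x + r), f y ≤ ξ - ε / 2 := by
  have h1 : ∀ y ∈ Icc (x - r) (x + r), ε / 2 ≤ |f y - ξ| := by
    intro y hy
    obtain ⟨z, hz, hzy⟩ := ht y (by rw [abs_le]; constructor <;> linarith [hy.1, hy.2])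
    have h2 := hA z hz
    have h3 := hl z y
    have h4 : l * |z - y| ≤ l * (c * r) := mul_le_mul_of_nonneg_left hzy hl0
    have h5 : |f z - ξ| ≤ |f z - f y| + |f y - ξ| := by
      have : f z - ξ = (f z - f y) + (f y - ξ) := by ring
      rw [this]; exact abs_add_le _ _
    linarith
  intro y hy
  by_contra hcon
  push Not at hcon
  have h2 : ξ < f y := by
    have h3 := h1 y hy
    rcases le_or_gt (f y) ξ with h4 | h4
    · rw [abs_of_nonpos (by linarith)] at h3; linarith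
    · exact h4
  have hxJ : x ∈ Icc (x - r) (x + r) := ⟨by linarith, by linarith⟩
  obtain ⟨w, hw, hw'⟩ := isPreconnected_Icc.intermediate_value hxJ hy hf.continuousOn
    (⟨hx.le, h2.le⟩ : ξ ∈ Icc (f x) (f y))
  have h3 := h1 w hw
  rw [hw', sub_self, abs_zero] at h3
  linarith

lemma above {f : ℝ → ℝ} (hf : Continuous f) {A : Set ℝ} {x r c l ε ξ : ℝ}
    (hl : ∀ y z, |f y - f z| ≤ l * |y - z|) (hl0 : 0 ≤ l) (hlc : l * (c * r) ≤ ε / 2)
    (hε : 0 < ε) (hr : 0 < r)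
    (ht : ∀ y, |y - x| ≤ r → ∃ z ∈ A, |z - y| ≤ c * r) (hA : ∀ z ∈ A, ε ≤ |f z - ξ|)
    (hx : ξ < f x) : ∀ y ∈ Icc (x - r) (x + r), ξ + ε / 2 ≤ f y := by
  intro y hy
  have h1 := below (f := fun y => -f y) (ξ := -ξ) hf.neg (A := A) (x := x) (r := r) (c := c)
    (l := l) (ε := ε) (fun y z => by
      have h2 := hl y z
      have e : -f y - -f z = -(f y - f z) := by ring
      rw [e, abs_neg]; exact h2) hl0 hlc hε hr ht (fun z hz => by
      have h2 := hA z hz
      have e : -f z - -ξ = -(f z - ξ) := by ring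
      rw [e, abs_neg]; exact h2) (by linarith) y hy
  linarith

variable {q : ℝ} {ν : ℕ → ℝ}

/-- a Lipschitz bound in terms of the last frequency -/
lemma Lac.S_lip' (h : Lac q ν) (m : ℕ) (x y : ℝ) :
    |S ν (m + 1) y - S ν (m + 1) x| ≤ ν m * (q / (q - 1)) * |y - x| := by
  have hq := h.one_lt
  have h1 := h.S_lip m x y
  have h2 : |Real.cos (ν m * y) - Real.cos (ν m * x)| ≤ ν m * |y - x| := by
    refine (Real.abs_cos_sub_cos_le _ _).trans ?_
    rw [← mul_sub, abs_mul, abs_of_pos (h.pos m)]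
  rw [S_succ, S_succ]
  have e : S ν m y + Real.cos (ν m * y) - (S ν m x + Real.cos (ν m * x)) =
      (S ν m y - S ν m x) + (Real.cos (ν m * y) - Real.cos (ν m * x)) := by ring
  rw [e]
  refine (abs_add_le _ _).trans ((add_le_add h1 h2).trans (le_of_eq ?_))
  have : q - 1 ≠ 0 := by linarith
  field_simp
  ring

/-- **The lacunary sums come close to `ξ` almost everywhere.** -/
theorem hit (h : Lac q ν) (ξ : ℝ) {ε : ℝ} (hε : 0 < ε) (M₀ : ℕ) :
    volume {x : ℝ | ∀ m, M₀ ≤ m → ε ≤ |S ν m x - ξ|} = 0 := by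
  by_contra hA0
  obtain ⟨A, hAd⟩ : ∃ A, A = {x : ℝ | ∀ m, M₀ ≤ m → ε ≤ |S ν m x - ξ|} := ⟨_, rfl⟩
  rw [← hAd] at hA0
  have hAm : MeasurableSet A := by
    have : A = ⋂ m, ⋂ (_ : M₀ ≤ m), {x : ℝ | ε ≤ |S ν m x - ξ|} := by
      rw [hAd]; ext x; simp
    rw [this]
    refine (isClosed_iInter fun m => isClosed_iInter fun _ => ?_).measurableSet
    exact isClosed_le continuous_const ((S_cont m).sub continuous_const).abs
  have hne : (ae (volume.restrict A)).NeBot := by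
    rw [ae_neBot, Ne, Measure.restrict_eq_zero]; exact hA0
  have g1 : ∀ᵐ x ∂(volume.restrict A), x ∈ A := ae_restrict_mem hAm
  have g2 := Besicovitch.ae_tendsto_measure_inter_div volume A
  have g3 : ∀ᵐ x ∂(volume.restrict A), ∀ M : ℕ, ¬ ∀ m, M ≤ m → ξ ≤ 1 * S ν m x := by
    refine ae_restrict_of_ae ?_
    rw [ae_all_iff]
    intro M
    rw [ae_iff]
    simpa only [not_not] using oneside h (Or.inl rfl) ξ M
  have g4 : ∀ᵐ x ∂(volume.restrict A), ∀ M : ℕ, ¬ ∀ m, M ≤ m → -ξ ≤ -1 * S ν m x := by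
    refine ae_restrict_of_ae ?_
    rw [ae_all_iff]
    intro M
    rw [ae_iff]
    simpa only [not_not] using oneside h (Or.inr rfl) (-ξ) M
  obtain ⟨x, hxA, hxd, hx1, hx2⟩ := (g1.and (g2.and (g3.and g4))).exists
  -- constants
  have hq := h.one_lt
  have hq1 : 0 < q - 1 := by linarith
  have hQ : 0 < q / (q - 1) := div_pos (by linarith) hq1
  obtain ⟨c, hc⟩ : ∃ c, c = ε / (2 * (Real.pi * (q / (q - 1)))) := ⟨_, rfl⟩
  have hpi := Real.pi_pos
  have hc0 : 0 < c := by rw [hc]; positivity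
  obtain ⟨r₀, hr₀, hth⟩ := thick hAm hxd hc0
  -- large frequencies
  have hlarge : ∃ N : ℕ, ∀ k, N ≤ k → Real.pi / ν k < r₀ := by
    have h0 := h.pos 0
    obtain ⟨N, hN⟩ := pow_unbounded_of_one_lt (Real.pi / (r₀ * ν 0)) hq
    refine ⟨N, fun k hk => ?_⟩
    have h3 : Real.pi / (r₀ * ν 0) < q ^ k := lt_of_lt_of_le hN (pow_le_pow_right₀ hq.le hk)
    rw [div_lt_iff₀ (by positivity)] at h3
    rw [div_lt_iff₀ (h.pos k)]
    have h4 := h.geom k
    calc Real.pi < q ^ k * (r₀ * ν 0) := h3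
      _ = r₀ * (q ^ k * ν 0) := by ring
      _ ≤ r₀ * ν k := mul_le_mul_of_nonneg_left h4 hr₀.le
  obtain ⟨N₁, hN₁⟩ := hlarge
  -- a crossing
  obtain ⟨m, hm, hlo, hhi⟩ : ∃ m, N₁ + M₀ ≤ m ∧ S ν m x < ξ ∧ ξ < S ν (m + 1) x := by
    have hne' : ∀ m, M₀ ≤ m → S ν m x ≠ ξ := by
      intro m hm he
      have h3 : x ∈ {x : ℝ | ∀ m, M₀ ≤ m → ε ≤ |S ν m x - ξ|} := hAd ▸ hxA
      have h4 := h3 m hm
      rw [he, sub_self, abs_zero] at h4
      linarith
    have h3 := hx1 (N₁ + M₀)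
    push Not at h3
    obtain ⟨a, ha, ha'⟩ := h3
    rw [one_mul] at ha'
    have h4 := hx2 a
    push Not at h4
    obtain ⟨b, hb, hb'⟩ := h4
    have hb'' : ξ < S ν b x := by linarith
    by_contra hcon
    push Not at hcon
    have h5 : ∀ k, S ν (a + k) x < ξ := by
      intro k
      induction k with
      | zero => exact ha'
      | succ k ih =>
        have h6 := hcon (a + k) (by omega) ih
        have h7 := hne' (a + k + 1) (by omega)
        exact lt_of_le_of_ne h6 h7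
    have h6 := h5 (b - a)
    rw [Nat.add_sub_cancel' hb] at h6
    linarith
  have hνm := h.pos m
  obtain ⟨r, hr⟩ : ∃ r, r = Real.pi / ν m := ⟨_, rfl⟩
  have hr0 : 0 < r := by rw [hr]; positivity
  have hrr : r < r₀ := by rw [hr]; exact hN₁ m (by omega)
  have ht := hth r hr0 hrr
  have hAz : ∀ k, M₀ ≤ k → ∀ z ∈ A, ε ≤ |S ν k z - ξ| := by
    intro k hk z hz
    rw [hAd] at hz
    exact hz k hk
  have hlip : ν m * (q / (q - 1)) * (c * r) ≤ ε / 2 := by
    rw [hc, hr]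
    refine le_of_eq ?_
    field_simp
  have hlip0 : 0 ≤ ν m * (q / (q - 1)) := by positivity
  have hbel := below (S_cont m) (l := ν m * (q / (q - 1))) (ξ := ξ) (fun y z => by
      refine (h.S_lip m z y).trans (mul_le_mul_of_nonneg_right ?_ (abs_nonneg _))
      rw [mul_div_assoc']
      refine div_le_div_of_nonneg_right ?_ hq1.le
      nlinarith) hlip0 hlip hε hr0 ht (hAz m (by omega)) hlo
  have habo := above (S_cont (m + 1)) (l := ν m * (q / (q - 1))) (ξ := ξ)
    (fun y z => h.S_lip' m z y) hlip0 hlip hε hr0 ht (hAz (m + 1) (by omega)) hhi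
  -- the last cosine is not positive somewhere
  obtain ⟨y, hy, hcos⟩ : ∃ y ∈ Icc (x - r) (x + r), Real.cos (ν m * y) ≤ 0 := by
    rcases le_or_gt (Real.cos (ν m * x)) 0 with h3 | h3
    · exact ⟨x, ⟨by linarith, by linarith⟩, h3⟩
    · refine ⟨x + r, ⟨by linarith, le_rfl⟩, ?_⟩
      have e : ν m * (x + r) = ν m * x + Real.pi := by
        rw [hr]; field_simp
      rw [e, Real.cos_add_pi]
      linarith
  have h5 := hbel y hy
  have h6 := habo y hy
  rw [S_succ] at h6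
  linarith

end Pool.Agent.T2h25
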