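import Mathlib

/-!
# Lacunary cosine sums: moments on intervals
-/

open MeasureTheory Set Filter Topology

namespace Pool.Agent.T2h25

/-- lacunary positive frequencies with the ratio `q` -/
structure Lac (q : ℝ) (ν : ℕ → ℝ) : Prop where
  one_lt : 1 < q
  pos : ∀ k, 0 < ν k
  gap : ∀ k, q * ν k ≤ ν (k + 1)

/-- partial sums -/
noncomputable def S (ν : ℕ → ℝ) (m : ℕ) (x : ℝ) : ℝ :=
  ∑ k ∈ Finset.range m, Real.cos (ν k * x)

/-- derivatives of the partial sums -/
noncomputable def S' (ν : ℕ → ℝ) (m : ℕ) (x : ℝ) : ℝ :=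
  ∑ k ∈ Finset.range m, -(Real.sin (ν k * x) * ν k)

variable {q : ℝ} {ν : ℕ → ℝ}

lemma Lac.shift (h : Lac q ν) (p : ℕ) : Lac q (fun k => ν (p + k)) :=
  ⟨h.one_lt, fun _ => h.pos _, fun _ => h.gap _⟩

lemma Lac.geom (h : Lac q ν) (k : ℕ) : q ^ k * ν 0 ≤ ν k := by
  have hq := h.one_lt
  induction k with
  | zero => simp
  | succ k ih =>
    calc q ^ (k + 1) * ν 0 = q * (q ^ k * ν 0) := by ring
      _ ≤ q * ν k := mul_le_mul_of_nonneg_left ih (by linarith)
      _ ≤ _ := h.gap k

lemma Lac.sum_le (h : Lac q ν) (m : ℕ) : (q - 1) * ∑ k ∈ Finset.range m, ν k ≤ ν m := by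
  induction m with
  | zero => simpa using (h.pos 0).le
  | succ m ih =>
    rw [Finset.sum_range_succ]
    have := h.gap m
    linarith

lemma Lac.lt_of_lt (h : Lac q ν) {k m : ℕ} (hk : k < m) : q * ν k ≤ ν m := by
  have hq := h.one_lt
  induction m with
  | zero => omega
  | succ m ih =>
    rcases Nat.lt_succ_iff_lt_or_eq.1 hk with h1 | h1
    · have h2 := ih h1
      have h3 := h.gap m
      have h4 := h.pos m
      nlinarith
    · subst h1; exact h.gap k

lemma S_succ (m : ℕ) (x : ℝ) : S ν (m + 1) x = S ν m x + Real.cos (ν m * x) := by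
  unfold S; rw [Finset.sum_range_succ]

lemma S_zero (x : ℝ) : S ν 0 x = 0 := by simp [S]

lemma S_cont (m : ℕ) : Continuous (S ν m) := by
  unfold S
  exact continuous_finsetSum _ fun k _ => Real.continuous_cos.comp (continuous_const.mul continuous_id)

lemma S'_cont (m : ℕ) : Continuous (S' ν m) := by
  unfold S'
  exact continuous_finsetSum _ fun k _ =>
    ((Real.continuous_sin.comp (continuous_const.mul continuous_id)).mul continuous_const).neg

lemma cos_cont (c : ℝ) : Continuous fun x : ℝ => Real.cos (c * x) :=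
  Real.continuous_cos.comp (continuous_const.mul continuous_id)

lemma S_deriv (m : ℕ) (x : ℝ) : HasDerivAt (S ν m) (S' ν m x) x := by
  unfold S S'
  refine HasDerivAt.fun_sum fun k _ => ?_
  have h1 : HasDerivAt (fun x : ℝ => ν k * x) (ν k) x := by
    simpa using (hasDerivAt_id x).const_mul (ν k)
  have h2 := (Real.hasDerivAt_cos (ν k * x)).comp x h1
  refine h2.congr_deriv ?_
  ring

lemma abs_S_le (m : ℕ) (x : ℝ) : |S ν m x| ≤ m := by
  unfold S
  refine (Finset.abs_sum_le_sum_abs _ _).trans ?_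
  calc _ ≤ ∑ _k ∈ Finset.range m, (1 : ℝ) := Finset.sum_le_sum fun k _ => Real.abs_cos_le_one _
    _ = m := by simp

lemma Lac.abs_S'_le (h : Lac q ν) (m : ℕ) (x : ℝ) : |S' ν m x| ≤ ν m / (q - 1) := by
  have hq := h.one_lt
  rw [le_div_iff₀ (by linarith)]
  have h1 : |S' ν m x| ≤ ∑ k ∈ Finset.range m, ν k := by
    unfold S'
    refine (Finset.abs_sum_le_sum_abs _ _).trans (Finset.sum_le_sum fun k _ => ?_)
    rw [abs_neg, abs_mul, abs_of_pos (h.pos k)]
    have := Real.abs_sin_le_one (ν k * x)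
    have := h.pos k
    nlinarith
  have h2 := h.sum_le m
  nlinarith

/-- the partial sums are Lipschitz -/
lemma Lac.S_lip (h : Lac q ν) (m : ℕ) (x y : ℝ) : |S ν m y - S ν m x| ≤ ν m / (q - 1) * |y - x| := by
  have hq := h.one_lt
  have h1 : |S ν m y - S ν m x| ≤ (∑ k ∈ Finset.range m, ν k) * |y - x| := by
    unfold S
    rw [← Finset.sum_sub_distrib, Finset.sum_mul]
    refine (Finset.abs_sum_le_sum_abs _ _).trans (Finset.sum_le_sum fun k _ => ?_)
    refine (Real.abs_cos_sub_cos_le _ _).trans ?_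
    rw [← mul_sub, abs_mul, abs_of_pos (h.pos k)]
  refine h1.trans (mul_le_mul_of_nonneg_right ?_ (abs_nonneg _))
  rw [le_div_iff₀ (by linarith)]
  have h2 := h.sum_le m
  linarith

/-! ### first moments -/

lemma int_cos {c : ℝ} (hc : 0 < c) (a b : ℝ) : |∫ x in a..b, Real.cos (c * x)| ≤ 2 / c := by
  rw [intervalIntegral.integral_comp_mul_left (fun x => Real.cos x) hc.ne', integral_cos, smul_eq_mul,
    abs_mul, abs_of_pos (inv_pos.2 hc), div_eq_inv_mul]
  refine mul_le_mul_of_nonneg_left ?_ (inv_pos.2 hc).le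
  have h1 := abs_le.1 (Real.abs_sin_le_one (c * b))
  have h2 := abs_le.1 (Real.abs_sin_le_one (c * a))
  rw [abs_le]
  constructor <;> linarith

lemma Lac.sum_inv_le (h : Lac q ν) (m : ℕ) :
    ∑ k ∈ Finset.range m, 1 / ν k ≤ q / (q - 1) / ν 0 := by
  have hq := h.one_lt
  have h0 := h.pos 0
  have h1 : ∀ k, 1 / ν k ≤ (1 / ν 0) * (1 / q) ^ k := by
    intro k
    have h2 := h.geom k
    have h3 : 0 < q ^ k * ν 0 := by positivity
    calc 1 / ν k ≤ 1 / (q ^ k * ν 0) := one_div_le_one_div_of_le h3 h2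
      _ = _ := by
        rw [one_div_pow]
        field_simp
  have hs : Summable fun k : ℕ => (1 / ν 0) * (1 / q) ^ k := by
    refine Summable.mul_left _ (summable_geometric_of_lt_one (by positivity) ?_)
    rw [div_lt_one (by linarith)]; exact hq
  calc _ ≤ ∑ k ∈ Finset.range m, (1 / ν 0) * (1 / q) ^ k := Finset.sum_le_sum fun k _ => h1 k
    _ ≤ ∑' k : ℕ, (1 / ν 0) * (1 / q) ^ k :=
        hs.sum_le_tsum _ fun k _ => by positivity
    _ = _ := by
        rw [tsum_mul_left, tsum_geometric_of_lt_one (by positivity)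
          (by rw [div_lt_one (by linarith)]; exact hq)]
        have : q - 1 ≠ 0 := by linarith
        have : (1 : ℝ) - 1 / q ≠ 0 := by
          have : 1 / q < 1 := by rw [div_lt_one (by linarith)]; exact hq
          linarith
        field_simp

lemma Lac.int_S (h : Lac q ν) (a b : ℝ) (m : ℕ) :
    |∫ x in a..b, S ν m x| ≤ 2 * (q / (q - 1)) / ν 0 := by
  have h1 : ∫ x in a..b, S ν m x = ∑ k ∈ Finset.range m, ∫ x in a..b, Real.cos (ν k * x) := by
    unfold S
    rw [intervalIntegral.integral_finsetSum]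
    intro k _
    exact (cos_cont _).intervalIntegrable _ _
  rw [h1]
  refine (Finset.abs_sum_le_sum_abs _ _).trans ?_
  calc _ ≤ ∑ k ∈ Finset.range m, 2 * (1 / ν k) := Finset.sum_le_sum fun k _ => by
        have := int_cos (h.pos k) a b
        rw [mul_one_div]; exact this
    _ = 2 * ∑ k ∈ Finset.range m, 1 / ν k := by rw [Finset.mul_sum]
    _ ≤ 2 * (q / (q - 1) / ν 0) := mul_le_mul_of_nonneg_left (h.sum_inv_le m) (by norm_num)
    _ = _ := by ring

end Pool.Agent.T2h25
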