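import Pool.Agent.T2h25.Lac.Mom

/-!
# Lacunary cosine sums: second and fourth moments on intervals
-/

open MeasureTheory Set Filter Topology

namespace Pool.Agent.T2h25

variable {q : ℝ} {ν : ℕ → ℝ}

/-- weighted sums of the inverse frequencies -/
lemma pow_sum (q : ℝ) (hq : 1 < q) (r : ℕ) : ∃ C : ℝ, 0 ≤ C ∧ ∀ ν : ℕ → ℝ, Lac q ν → ∀ m : ℕ,
    ∑ k ∈ Finset.range m, (k : ℝ) ^ r / ν k ≤ C / ν 0 := by
  have hs : Summable fun k : ℕ => (k : ℝ) ^ r * (1 / q) ^ k := by
    refine summable_pow_mul_geometric_of_norm_lt_one r ?_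
    rw [Real.norm_eq_abs, abs_of_pos (by positivity), div_lt_one (by linarith)]
    exact hq
  have hq0 : 0 < q := by linarith
  refine ⟨∑' k : ℕ, (k : ℝ) ^ r * (1 / q) ^ k, tsum_nonneg fun k => by positivity,
    fun ν h m => ?_⟩
  have h0 := h.pos 0
  have h1 : ∀ k : ℕ, (k : ℝ) ^ r / ν k ≤ (1 / ν 0) * ((k : ℝ) ^ r * (1 / q) ^ k) := by
    intro k
    have h2 := h.geom k
    have h3 : 0 < q ^ k * ν 0 := by positivity
    calc (k : ℝ) ^ r / ν k ≤ (k : ℝ) ^ r / (q ^ k * ν 0) :=
          div_le_div_of_nonneg_left (by positivity) h3 h2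
      _ = _ := by
        rw [one_div_pow]
        field_simp
  calc _ ≤ ∑ k ∈ Finset.range m, (1 / ν 0) * ((k : ℝ) ^ r * (1 / q) ^ k) :=
        Finset.sum_le_sum fun k _ => h1 k
    _ = (1 / ν 0) * ∑ k ∈ Finset.range m, ((k : ℝ) ^ r * (1 / q) ^ k) := by
        rw [Finset.mul_sum]
    _ ≤ (1 / ν 0) * ∑' k : ℕ, (k : ℝ) ^ r * (1 / q) ^ k :=
        mul_le_mul_of_nonneg_left (hs.sum_le_tsum _ fun k _ => by positivity) (by positivity)
    _ = _ := by ring

lemma ii_add {f g : ℝ → ℝ} (hf : Continuous f) (hg : Continuous g) (a b : ℝ) :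
    ∫ x in a..b, (f x + g x) = (∫ x in a..b, f x) + ∫ x in a..b, g x :=
  intervalIntegral.integral_add (hf.intervalIntegrable _ _) (hg.intervalIntegrable _ _)

lemma ii_mul (c : ℝ) (f : ℝ → ℝ) (a b : ℝ) :
    ∫ x in a..b, c * f x = c * ∫ x in a..b, f x := intervalIntegral.integral_const_mul _ _

lemma ii_const (c a b : ℝ) : ∫ _x in a..b, c = (b - a) * c := by
  rw [intervalIntegral.integral_const, smul_eq_mul]

lemma cos_mul_cos (x y : ℝ) : Real.cos x * Real.cos y =
    Real.cos (y - x) / 2 + Real.cos (y + x) / 2 := by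
  rw [Real.cos_sub, Real.cos_add]; ring

/-- the mixed term -/
lemma Lac.int_S_cos (h : Lac q ν) (a b : ℝ) (m : ℕ) :
    |∫ x in a..b, S ν m x * Real.cos (ν m * x)| ≤ 2 * (q / (q - 1)) * (m / ν m) := by
  have hq := h.one_lt
  have hm := h.pos m
  have h1 : ∫ x in a..b, S ν m x * Real.cos (ν m * x) =
      ∑ k ∈ Finset.range m, ((∫ x in a..b, Real.cos ((ν m - ν k) * x)) / 2 +
        (∫ x in a..b, Real.cos ((ν m + ν k) * x)) / 2) := by
    have h2 : ∀ x, S ν m x * Real.cos (ν m * x) = ∑ k ∈ Finset.range m,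
        (Real.cos ((ν m - ν k) * x) / 2 + Real.cos ((ν m + ν k) * x) / 2) := by
      intro x
      unfold S
      rw [Finset.sum_mul]
      refine Finset.sum_congr rfl fun k _ => ?_
      rw [cos_mul_cos, sub_mul, add_mul]
    simp_rw [h2]
    rw [intervalIntegral.integral_finsetSum]
    · refine Finset.sum_congr rfl fun k _ => ?_
      rw [intervalIntegral.integral_add, intervalIntegral.integral_div,
        intervalIntegral.integral_div]
      · exact ((cos_cont _).div_const _).intervalIntegrable _ _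
      · exact ((cos_cont _).div_const _).intervalIntegrable _ _
    · intro k _
      exact (((cos_cont _).div_const _).add ((cos_cont _).div_const _)).intervalIntegrable _ _
  rw [h1]
  refine (Finset.abs_sum_le_sum_abs _ _).trans ?_
  have h3 : ∀ k ∈ Finset.range m, |(∫ x in a..b, Real.cos ((ν m - ν k) * x)) / 2 +
        (∫ x in a..b, Real.cos ((ν m + ν k) * x)) / 2| ≤ 2 * (q / (q - 1)) / ν m := by
    intro k hk
    have hk' := h.pos k
    have h4 := h.lt_of_lt (Finset.mem_range.1 hk)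
    have h5 : ν m * (q - 1) / q ≤ ν m - ν k := by
      rw [div_le_iff₀ (by linarith)]
      linarith
    have h6 : 0 < ν m * (q - 1) / q := by
      have : 0 < q - 1 := by linarith
      positivity
    have h7 := int_cos (lt_of_lt_of_le h6 h5) a b
    have h8 := int_cos (show 0 < ν m + ν k by linarith) a b
    have h9 : 2 / (ν m - ν k) ≤ 2 * (q / (q - 1)) / ν m := by
      calc 2 / (ν m - ν k) ≤ 2 / (ν m * (q - 1) / q) :=
            div_le_div_of_nonneg_left (by norm_num) h6 h5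
        _ = _ := by
          have : q - 1 ≠ 0 := by linarith
          field_simp
    have h10 : 2 / (ν m + ν k) ≤ 2 / (ν m - ν k) :=
      div_le_div_of_nonneg_left (by norm_num) (lt_of_lt_of_le h6 h5) (by linarith)
    rw [abs_le] at h7 h8 ⊢
    constructor <;> linarith
  refine (Finset.sum_le_sum h3).trans (le_of_eq ?_)
  rw [Finset.sum_const, Finset.card_range, nsmul_eq_mul]
  ring

lemma int_cos_sq {c : ℝ} (hc : 0 < c) (a b : ℝ) :
    |(∫ x in a..b, Real.cos (c * x) ^ 2) - (b - a) / 2| ≤ 1 / c := by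
  have h1 : ∫ x in a..b, Real.cos (c * x) ^ 2 =
      (b - a) / 2 + (∫ x in a..b, Real.cos ((2 * c) * x)) / 2 := by
    have h2 : ∀ x : ℝ, Real.cos (c * x) ^ 2 = 1 / 2 + Real.cos ((2 * c) * x) / 2 := by
      intro x
      rw [mul_assoc, Real.cos_two_mul]; ring
    simp_rw [h2]
    refine (ii_add continuous_const ((cos_cont (2 * c)).div_const 2) a b).trans ?_
    rw [ii_const, intervalIntegral.integral_div]
    ring
  have h3 := int_cos (show 0 < 2 * c by linarith) a b
  have h4 : 2 / (2 * c) = 1 / c := by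
    field_simp
  have h5 : 0 < 1 / c := by positivity
  rw [h1]
  rw [h4] at h3
  rw [abs_le] at h3 ⊢
  constructor <;> linarith

lemma sq_cont (m : ℕ) : Continuous fun x => S ν m x ^ 2 := (S_cont m).pow 2

/-- **second moments** -/
theorem second (q : ℝ) (hq : 1 < q) : ∃ C : ℝ, 0 ≤ C ∧ ∀ ν : ℕ → ℝ, Lac q ν → ∀ a b : ℝ, ∀ m : ℕ,
    |(∫ x in a..b, S ν m x ^ 2) - m * ((b - a) / 2)| ≤ C / ν 0 := by
  obtain ⟨C0, hC0, h0⟩ := pow_sum q hq 0
  obtain ⟨C1, hC1, h1⟩ := pow_sum q hq 1
  have hq' : 0 < q / (q - 1) := div_pos (by linarith) (by linarith)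
  refine ⟨C0 + 4 * (q / (q - 1)) * C1, by positivity, fun ν h a b m => ?_⟩
  have key : ∀ m : ℕ, |(∫ x in a..b, S ν m x ^ 2) - m * ((b - a) / 2)| ≤
      ∑ k ∈ Finset.range m, (k : ℝ) ^ 0 / ν k +
        4 * (q / (q - 1)) * ∑ k ∈ Finset.range m, (k : ℝ) ^ 1 / ν k := by
    intro m
    induction m with
    | zero => simp [S_zero]
    | succ m ih =>
      have e1 : ∫ x in a..b, S ν (m + 1) x ^ 2 = (∫ x in a..b, S ν m x ^ 2) +
          (2 * (∫ x in a..b, S ν m x * Real.cos (ν m * x)) +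
            ∫ x in a..b, Real.cos (ν m * x) ^ 2) := by
        have e2 : ∀ x, S ν (m + 1) x ^ 2 = S ν m x ^ 2 + (2 * (S ν m x * Real.cos (ν m * x)) +
            Real.cos (ν m * x) ^ 2) := by
          intro x; rw [S_succ]; ring
        simp_rw [e2]
        have c1 : Continuous fun x => S ν m x * Real.cos (ν m * x) := (S_cont m).mul (cos_cont _)
        have c2 : Continuous fun x : ℝ => Real.cos (ν m * x) ^ 2 := (cos_cont _).pow 2
        refine (ii_add (sq_cont m) ((c1.const_mul 2).add c2) a b).trans ?_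
        congr 1
        refine (ii_add (c1.const_mul 2) c2 a b).trans ?_
        rw [ii_mul]
      have e3 := h.int_S_cos a b m
      have e4 := int_cos_sq (h.pos m) a b
      rw [Finset.sum_range_succ, Finset.sum_range_succ]
      rw [e1]
      simp only [pow_zero, pow_one] at ih ⊢
      push_cast
      rw [abs_le] at ih e3 e4 ⊢
      constructor <;> nlinarith [ih.1, ih.2, e3.1, e3.2, e4.1, e4.2]
  refine (key m).trans ?_
  have h2 := h0 ν h m
  have h3 := mul_le_mul_of_nonneg_left (h1 ν h m) (show 0 ≤ 4 * (q / (q - 1)) by positivity)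
  calc _ ≤ C0 / ν 0 + 4 * (q / (q - 1)) * (C1 / ν 0) := add_le_add h2 h3
    _ = _ := by ring

/-- the cubic term -/
lemma Lac.int_S3_cos (h : Lac q ν) {a b : ℝ} (hab : a ≤ b) (m : ℕ) :
    ∫ x in a..b, S ν m x ^ 3 * Real.cos (ν m * x) ≤
      2 * (m ^ 3 / ν m) + 3 / (q - 1) * ∫ x in a..b, S ν m x ^ 2 := by
  have hq := h.one_lt
  have hm := h.pos m
  have hder : ∀ x : ℝ, HasDerivAt (fun x => S ν m x ^ 3 * (Real.sin (ν m * x) / ν m))
      (3 * S ν m x ^ 2 * S' ν m x * (Real.sin (ν m * x) / ν m) +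
        S ν m x ^ 3 * Real.cos (ν m * x)) x := by
    intro x
    have h1 := (S_deriv (ν := ν) m x).pow 3
    have h2 : HasDerivAt (fun x : ℝ => ν m * x) (ν m) x := by
      simpa using (hasDerivAt_id x).const_mul (ν m)
    have h3 := ((Real.hasDerivAt_sin (ν m * x)).comp x h2).div_const (ν m)
    have h4 := h1.mul h3
    refine h4.congr_deriv ?_
    simp only [Function.comp, Pi.pow_apply]
    field_simp
    norm_num
    ring
  have c1 : Continuous fun x => 3 * S ν m x ^ 2 * S' ν m x * (Real.sin (ν m * x) / ν m) :=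
    ((continuous_const.mul (sq_cont m)).mul (S'_cont m)).mul
      ((Real.continuous_sin.comp (continuous_const.mul continuous_id)).div_const _)
  have c2 : Continuous fun x => S ν m x ^ 3 * Real.cos (ν m * x) :=
    ((S_cont m).pow 3).mul (cos_cont _)
  have e1 := intervalIntegral.integral_eq_sub_of_hasDerivAt (a := a) (b := b)
    (fun x _ => hder x) ((c1.add c2).intervalIntegrable _ _)
  rw [intervalIntegral.integral_add (c1.intervalIntegrable _ _) (c2.intervalIntegrable _ _)] at e1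
  have hb : ∀ x : ℝ, |S ν m x ^ 3 * (Real.sin (ν m * x) / ν m)| ≤ m ^ 3 / ν m := by
    intro x
    rw [abs_mul, abs_div, abs_pow, abs_of_pos hm, mul_div_assoc']
    refine div_le_div_of_nonneg_right ?_ hm.le
    have h1 := pow_le_pow_left₀ (abs_nonneg _) (abs_S_le (ν := ν) m x) 3
    have h2 := Real.abs_sin_le_one (ν m * x)
    calc _ ≤ (m : ℝ) ^ 3 * 1 := mul_le_mul h1 h2 (abs_nonneg _) (by positivity)
      _ = _ := mul_one _
  have e2 : -∫ x in a..b, 3 * S ν m x ^ 2 * S' ν m x * (Real.sin (ν m * x) / ν m) ≤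
      3 / (q - 1) * ∫ x in a..b, S ν m x ^ 2 := by
    rw [← intervalIntegral.integral_neg, ← intervalIntegral.integral_const_mul]
    refine intervalIntegral.integral_mono_on hab (c1.neg.intervalIntegrable _ _)
      ((continuous_const.mul (sq_cont m)).intervalIntegrable _ _) fun x _ => ?_
    refine (neg_le_abs _).trans ?_
    rw [abs_mul, abs_mul, abs_mul, abs_of_pos (show (0 : ℝ) < 3 by norm_num), abs_pow, sq_abs,
      abs_div, abs_of_pos hm]
    have h1 := h.abs_S'_le m x
    have h2 : |Real.sin (ν m * x)| / ν m ≤ 1 / ν m :=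
      div_le_div_of_nonneg_right (Real.abs_sin_le_one _) hm.le
    calc 3 * S ν m x ^ 2 * |S' ν m x| * (|Real.sin (ν m * x)| / ν m) ≤
        3 * S ν m x ^ 2 * (ν m / (q - 1)) * (1 / ν m) := by
          refine mul_le_mul (mul_le_mul_of_nonneg_left h1 (by positivity)) h2 (by positivity) ?_
          have : 0 < q - 1 := by linarith
          positivity
      _ = _ := by
        have : q - 1 ≠ 0 := by linarith
        field_simp
  have h3 := abs_le.1 (hb b)
  have h4 := abs_le.1 (hb a)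
  linarith

/-- **fourth moments** -/
theorem fourth (q : ℝ) (hq : 1 < q) : ∃ C : ℝ, 1 ≤ C ∧ ∀ ν : ℕ → ℝ, Lac q ν → ∀ a b : ℝ, a ≤ b →
    ∀ m : ℕ, ∫ x in a..b, S ν m x ^ 4 ≤ C * (m ^ 2 * (b - a) + m * (b - a) + (m + 1) / ν 0) := by
  obtain ⟨C2, hC2, h2⟩ := second q hq
  obtain ⟨C3, hC3, h3⟩ := pow_sum q hq 3
  have hq1 : 0 < q - 1 := by linarith
  obtain ⟨D, hD⟩ : ∃ D, D = 12 / (q - 1) + 8 := ⟨_, rfl⟩
  have hD0 : 0 < D := by rw [hD]; positivity
  refine ⟨D + D * C2 + 8 * C3 + 3 + 1, by nlinarith [mul_nonneg hD0.le hC2], fun ν h a b hab m => ?_⟩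
  have h0 := h.pos 0
  have key : ∀ m : ℕ, ∫ x in a..b, S ν m x ^ 4 ≤
      m * (D * (m * ((b - a) / 2) + C2 / ν 0) + 3 * (b - a)) +
        8 * ∑ k ∈ Finset.range m, (k : ℝ) ^ 3 / ν k := by
    intro m
    induction m with
    | zero => simp [S_zero]
    | succ m ih =>
      have hpt : ∀ x, S ν (m + 1) x ^ 4 ≤ S ν m x ^ 4 + (4 * (S ν m x ^ 3 * Real.cos (ν m * x)) +
          (8 * S ν m x ^ 2 + 3)) := by
        intro x
        rw [S_succ]
        obtain ⟨s, hs⟩ : ∃ s, s = S ν m x := ⟨_, rfl⟩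
        obtain ⟨c, hc⟩ : ∃ c, c = Real.cos (ν m * x) := ⟨_, rfl⟩
        have hc1 : |c| ≤ 1 := by rw [hc]; exact Real.abs_cos_le_one _
        rw [← hs, ← hc]
        have hc2 : c ^ 2 ≤ 1 := by
          rw [← sq_abs]; exact pow_le_one₀ (abs_nonneg _) hc1
        have hc4 : c ^ 4 ≤ 1 := by
          have : c ^ 4 = (c ^ 2) ^ 2 := by ring
          rw [this]; exact pow_le_one₀ (sq_nonneg _) hc2
        have h5 : 4 * s * c ^ 3 ≤ 2 * s ^ 2 + 2 * c ^ 6 := by nlinarith [sq_nonneg (s - c ^ 3)]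
        have hc6 : c ^ 6 ≤ 1 := by
          have : c ^ 6 = (c ^ 2) ^ 3 := by ring
          rw [this]; exact pow_le_one₀ (sq_nonneg _) hc2
        have h6 : 6 * s ^ 2 * c ^ 2 ≤ 6 * s ^ 2 := by nlinarith [sq_nonneg s]
        nlinarith
      have c1 : Continuous fun x => S ν m x ^ 3 * Real.cos (ν m * x) :=
        ((S_cont m).pow 3).mul (cos_cont _)
      have c4 : Continuous fun x => S ν m x ^ 4 := (S_cont m).pow 4
      have c5 : Continuous fun x => 8 * S ν m x ^ 2 + 3 :=
        (continuous_const.mul (sq_cont m)).add continuous_const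
      have e1 : ∫ x in a..b, S ν (m + 1) x ^ 4 ≤ (∫ x in a..b, S ν m x ^ 4) +
          (4 * (∫ x in a..b, S ν m x ^ 3 * Real.cos (ν m * x)) +
            (8 * (∫ x in a..b, S ν m x ^ 2) + 3 * (b - a))) := by
        have e2 := intervalIntegral.integral_mono_on (a := a) (b := b) (μ := volume) hab
          (((S_cont (ν := ν) (m + 1)).pow 4).intervalIntegrable _ _)
          ((c4.add ((c1.const_mul 4).add c5)).intervalIntegrable _ _) fun x _ => hpt x
        refine e2.trans (le_of_eq ?_)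
        refine (ii_add c4 ((c1.const_mul 4).add c5) a b).trans ?_
        congr 1
        refine (ii_add (c1.const_mul 4) c5 a b).trans ?_
        rw [ii_mul]
        congr 1
        refine (ii_add (f := fun x => 8 * S ν m x ^ 2) (g := fun _ => 3)
          (continuous_const.mul (sq_cont m)) continuous_const a b).trans ?_
        rw [ii_mul, ii_const]
        ring
      have e3 := h.int_S3_cos hab m
      have e4 := (abs_le.1 (h2 ν h a b m)).2
      have e5 : 0 < ν m := h.pos m
      rw [Finset.sum_range_succ]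
      have e6 : 4 * (3 / (q - 1) * ∫ x in a..b, S ν m x ^ 2) + 8 * (∫ x in a..b, S ν m x ^ 2) =
          D * ∫ x in a..b, S ν m x ^ 2 := by
        rw [hD]; ring
      have e7 : D * (∫ x in a..b, S ν m x ^ 2) ≤ D * (m * ((b - a) / 2) + C2 / ν 0) :=
        mul_le_mul_of_nonneg_left (by linarith) hD0.le
      have e8 : (0 : ℝ) ≤ D * ((b - a) / 2) * (m + 1) :=
        mul_nonneg (mul_nonneg hD0.le (by linarith)) (by positivity)
      push_cast
      nlinarith
  have h4 := h3 ν h m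
  have h5 := key m
  have hb : 0 ≤ b - a := by linarith
  have i1 : 0 ≤ (m : ℝ) ^ 2 * (b - a) := by positivity
  have i2 : 0 ≤ (m : ℝ) * (b - a) := by positivity
  have i3 : 0 ≤ ((m : ℝ) + 1) / ν 0 := by positivity
  have i4 : 0 ≤ (m : ℝ) / ν 0 := by positivity
  have i5 : 0 ≤ 1 / ν 0 := by positivity
  have i6 : ((m : ℝ) + 1) / ν 0 = m / ν 0 + 1 / ν 0 := by ring
  have i7 : (m : ℝ) * (D * (m * ((b - a) / 2) + C2 / ν 0) + 3 * (b - a)) =
      D / 2 * ((m : ℝ) ^ 2 * (b - a)) + D * C2 * (m / ν 0) + 3 * (m * (b - a)) := by ring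
  have i8 : C3 / ν 0 = C3 * (1 / ν 0) := by ring
  rw [i7] at h5
  rw [i8] at h4
  rw [i6]
  have j1 := mul_nonneg hD0.le hC2
  nlinarith [mul_nonneg j1 i1, mul_nonneg j1 i2, mul_nonneg j1 i4, mul_nonneg j1 i5,
    mul_nonneg hC3 i1, mul_nonneg hC3 i2, mul_nonneg hC3 i4, mul_nonneg hC3 i5,
    mul_nonneg hD0.le i1, mul_nonneg hD0.le i2, mul_nonneg hD0.le i4, mul_nonneg hD0.le i5]

end Pool.Agent.T2h25
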