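import Pool.Agent.T2h25.Lac.Mom2

/-!
# Lacunary cosine sums are almost everywhere unbounded in both directions
-/

open MeasureTheory Set Filter Topology

namespace Pool.Agent.T2h25

/-! ### density points -/

/-- the density property in terms of real numbers -/
lemma dens {A : Set ℝ} (hA : MeasurableSet A) {x : ℝ}
    (h : Tendsto (fun r => volume (A ∩ Metric.closedBall x r) / volume (Metric.closedBall x r))
      (𝓝[>] 0) (𝓝 1)) {η : ℝ} (hη : 0 < η) :
    ∃ r₀ > 0, ∀ r : ℝ, 0 < r → r < r₀ →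
      (volume (Metric.closedBall x r \ A)).toReal ≤ η * (2 * r) := by
  have h1 : ENNReal.ofReal (1 - η) < 1 := by
    rw [← ENNReal.ofReal_one]
    exact (ENNReal.ofReal_lt_ofReal_iff one_pos).2 (by linarith)
  have h2 := h.eventually (lt_mem_nhds h1)
  rw [eventually_nhdsWithin_iff, Metric.eventually_nhds_iff] at h2
  obtain ⟨r₀, hr₀, h3⟩ := h2
  refine ⟨r₀, hr₀, fun r hr hr' => ?_⟩
  have h4 := h3 (y := r) (by rwa [Real.dist_eq, sub_zero, abs_of_pos hr]) hr
  have hv : volume (Metric.closedBall x r) = ENNReal.ofReal (2 * r) := Real.volume_closedBall x r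
  rw [hv] at h4
  have h5 : ENNReal.ofReal (1 - η) * ENNReal.ofReal (2 * r) ≤
      volume (A ∩ Metric.closedBall x r) := by
    refine (ENNReal.le_div_iff_mul_le ?_ ?_).1 h4.le
    · left; exact (ENNReal.ofReal_pos.2 (by linarith)).ne'
    · left; exact ENNReal.ofReal_ne_top
  have h6 : volume (A ∩ Metric.closedBall x r) + volume (Metric.closedBall x r \ A) =
      ENNReal.ofReal (2 * r) := by
    rw [← hv, inter_comm]
    exact measure_inter_add_sdiff _ hA
  have t1 : volume (A ∩ Metric.closedBall x r) ≠ ⊤ := by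
    refine ne_top_of_le_ne_top (b := ENNReal.ofReal (2 * r)) ENNReal.ofReal_ne_top ?_
    rw [← h6]; exact le_self_add
  have t2 : volume (Metric.closedBall x r \ A) ≠ ⊤ := by
    refine ne_top_of_le_ne_top (b := ENNReal.ofReal (2 * r)) ENNReal.ofReal_ne_top ?_
    rw [← h6]; exact le_add_self
  have h7 := congrArg ENNReal.toReal h6
  rw [ENNReal.toReal_add t1 t2, ENNReal.toReal_ofReal (by linarith)] at h7
  have h8 := ENNReal.toReal_mono t1 h5
  rw [ENNReal.toReal_mul, ENNReal.toReal_ofReal (show 0 ≤ 2 * r by linarith)] at h8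
  have h9 : 1 - η ≤ (ENNReal.ofReal (1 - η)).toReal := by
    rw [ENNReal.toReal_ofReal']; exact le_max_left _ _
  nlinarith

/-- a set of positive measure has a point of density -/
lemma exists_dens {A : Set ℝ} (h : volume A ≠ 0) : ∃ x : ℝ,
    Tendsto (fun r => volume (A ∩ Metric.closedBall x r) / volume (Metric.closedBall x r))
      (𝓝[>] 0) (𝓝 1) := by
  have : (ae (volume.restrict A)).NeBot := by
    rw [ae_neBot, Ne, Measure.restrict_eq_zero]; exact h
  exact (Besicovitch.ae_tendsto_measure_inter_div volume A).exists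

/-! ### elementary inequalities -/

lemma low_pt (s : ℝ) {l : ℝ} (hl : 0 < l) : s ^ 2 / l - s ^ 4 / (4 * l ^ 3) ≤ |s| := by
  obtain ⟨u, hu⟩ : ∃ u, u = |s| / l := ⟨_, rfl⟩
  have hu0 : 0 ≤ u := by rw [hu]; positivity
  have hs : |s| = u * l := by rw [hu]; field_simp
  have e2 : s ^ 2 = (u * l) ^ 2 := by rw [← hs, sq_abs]
  have e4 : s ^ 4 = (u * l) ^ 4 := by
    rw [show s ^ 4 = (s ^ 2) ^ 2 by ring, e2]; ring
  rw [e2, e4, hs]
  have e5 : (u * l) ^ 2 / l - (u * l) ^ 4 / (4 * l ^ 3) = (u ^ 2 - u ^ 4 / 4) * l := by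
    field_simp
  rw [e5]
  refine mul_le_mul_of_nonneg_right ?_ hl.le
  have h1 : 0 ≤ (u - 6 / 5) ^ 2 * (u + 12 / 5) / 4 := by positivity
  have h2 : 0 ≤ u * ((u - 6 / 5) ^ 2 * (u + 12 / 5) / 4 + 8 / 100 * u + 136 / 1000) :=
    mul_nonneg hu0 (by positivity)
  nlinarith

lemma up_pt {σ ξ s : ℝ} (hσ : σ = 1 ∨ σ = -1) (h : ξ ≤ σ * s) : |s| ≤ σ * s + 2 * |ξ| := by
  have h1 := neg_abs_le ξ
  have h2 := abs_nonneg ξ
  rcases hσ with rfl | rfl
  · rcases abs_cases s with ⟨h3, _⟩ | ⟨h3, _⟩ <;> rw [h3] <;> linarith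
  · rcases abs_cases s with ⟨h3, _⟩ | ⟨h3, _⟩ <;> rw [h3] <;> linarith

lemma up_pt2 {σ s a : ℝ} (hσ : σ = 1 ∨ σ = -1) (ha : 0 < a) : |s| ≤ σ * s + (a + s ^ 2 / a) := by
  have h1 : 2 * |s| ≤ a + s ^ 2 / a := by
    have h2 : 0 ≤ (a - |s|) ^ 2 / a := by positivity
    have h3 : (a - |s|) ^ 2 / a = a + s ^ 2 / a - 2 * |s| := by
      rw [sub_sq, sq_abs]; field_simp; ring
    linarith
  have h4 : -|s| ≤ σ * s := by
    rcases hσ with rfl | rfl
    · rw [one_mul]; exact neg_abs_le s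
    · have := le_abs_self s; linarith
  linarith

/-- the final contradiction -/
lemma fin_ineq {L r K1 K2 x v : ℝ} (hL : 1 ≤ L) (hr : 0 < r) (hK2 : 0 ≤ K2)
    (hv : 0 < v) {n X1 X2 X4 : ℝ} (hn : 1 ≤ n)
    (hX2 : |X2 - n ^ 2 * r| ≤ K2)
    (hX4 : X4 ≤ L * (n ^ 4 * (2 * r) + n ^ 2 * (2 * r) + (n ^ 2 + 1) / v))
    (hlow : X2 / (L * n) - X4 / (4 * (L * n) ^ 3) ≤ X1)
    (hup : X1 ≤ K1 + 2 * x * (2 * r) + (8 * L * n) * ((1 / (8 * L)) ^ 2 * (2 * r)) +
      X2 / (8 * L * n)) :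
    n * r ≤ 8 * L * (K1 + 4 * x * r + 2 * K2 + (2 * r + 2 / v)) := by
  have hL0 : 0 < L := by linarith
  have hn0 : 0 < n := by linarith
  obtain ⟨h1, h2⟩ := abs_le.1 hX2
  have a1 : n * r / L - K2 ≤ X2 / (L * n) := by
    rw [le_div_iff₀ (by positivity)]
    have : (n * r / L - K2) * (L * n) = n ^ 2 * r - K2 * (L * n) := by field_simp
    rw [this]
    have h3 : K2 * 1 ≤ K2 * (L * n) := mul_le_mul_of_nonneg_left (by nlinarith) hK2
    linarith
  have a2 : X2 / (8 * L * n) ≤ n * r / (8 * L) + K2 := by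
    rw [div_le_iff₀ (by positivity)]
    have : (n * r / (8 * L) + K2) * (8 * L * n) = n ^ 2 * r + K2 * (8 * (L * n)) := by
      field_simp
    rw [this]
    have h3 : K2 * 1 ≤ K2 * (8 * (L * n)) := mul_le_mul_of_nonneg_left (by nlinarith) hK2
    linarith
  have a3 : X4 / (4 * (L * n) ^ 3) ≤ n * r / (2 * L) + (2 * r + 2 / v) := by
    rw [div_le_iff₀ (by positivity)]
    refine hX4.trans ?_
    have e1 : (n * r / (2 * L) + (2 * r + 2 / v)) * (4 * (L * n) ^ 3) =
        2 * L ^ 2 * n ^ 4 * r + 4 * L ^ 3 * n ^ 3 * (2 * r + 2 / v) := by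
      field_simp; ring
    rw [e1]
    have hL2 : L ≤ L ^ 2 := by nlinarith
    have hL3 : L ≤ L ^ 3 := by nlinarith
    have hn3 : n ^ 2 ≤ n ^ 3 := by nlinarith [sq_nonneg n]
    have b1 : L * (n ^ 4 * (2 * r)) ≤ 2 * L ^ 2 * n ^ 4 * r := by
      have : 0 ≤ n ^ 4 * (2 * r) := by positivity
      nlinarith
    have b2 : L * (n ^ 2 * (2 * r)) ≤ 4 * L ^ 3 * n ^ 3 * (2 * r) := by
      have c1 : L * n ^ 2 ≤ L ^ 3 * n ^ 3 := mul_le_mul hL3 hn3 (by positivity) (by positivity)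
      have c2 : 0 ≤ L ^ 3 * n ^ 3 := by positivity
      nlinarith
    have b3 : L * ((n ^ 2 + 1) / v) ≤ 4 * L ^ 3 * n ^ 3 * (2 / v) := by
      have c1 : L * n ^ 2 ≤ L ^ 3 * n ^ 3 := mul_le_mul hL3 hn3 (by positivity) (by positivity)
      have c3 : L * 1 ≤ L * n ^ 2 := mul_le_mul_of_nonneg_left (by nlinarith) hL0.le
      rw [mul_div_assoc', mul_div_assoc', div_le_div_iff_of_pos_right hv]
      nlinarith [show 0 ≤ L ^ 3 * n ^ 3 by positivity]
    nlinarith
  have a4 : (8 * L * n) * ((1 / (8 * L)) ^ 2 * (2 * r)) = n * r / (4 * L) := by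
    field_simp; ring
  rw [a4] at hup
  have a5 : n * r / L - n * r / (2 * L) - n * r / (4 * L) - n * r / (8 * L) = n * r / (8 * L) := by
    field_simp; ring
  have a6 : n * r / (8 * L) ≤ K1 + 4 * x * r + 2 * K2 + (2 * r + 2 / v) := by linarith
  rw [div_le_iff₀ (by positivity)] at a6
  linarith

lemma int_ind {B : Set ℝ} (hB : MeasurableSet B) {a b : ℝ} (hab : a ≤ b) :
    ∫ x in a..b, indicator Bᶜ (fun _ => (1 : ℝ)) x ≤ (volume (Icc a b \ B)).toReal := by
  rw [intervalIntegral.integral_of_le hab, integral_indicator hB.compl, setIntegral_const,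
    smul_eq_mul, mul_one]
  rw [Measure.real, Measure.restrict_apply' measurableSet_Ioc]
  refine ENNReal.toReal_mono ?_ (measure_mono ?_)
  · exact ne_top_of_le_ne_top (by simp) (measure_mono (sdiff_subset : Icc a b \ B ⊆ Icc a b))
  · rintro x ⟨h1, h2⟩
    exact ⟨Ioc_subset_Icc_self h2, h1⟩

/-- **One-sided bounds hold on null sets only.** -/
theorem oneside {q : ℝ} {ν : ℕ → ℝ} (h : Lac q ν) {σ : ℝ} (hσ : σ = 1 ∨ σ = -1) (ξ : ℝ) (M : ℕ) :
    volume {x : ℝ | ∀ m, M ≤ m → ξ ≤ σ * S ν m x} = 0 := by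
  by_contra hB
  obtain ⟨B, hBd⟩ : ∃ B, B = {x : ℝ | ∀ m, M ≤ m → ξ ≤ σ * S ν m x} := ⟨_, rfl⟩
  rw [← hBd] at hB
  have hBm : MeasurableSet B := by
    have : B = ⋂ m, ⋂ (_ : M ≤ m), {x : ℝ | ξ ≤ σ * S ν m x} := by
      rw [hBd]; ext x; simp
    rw [this]
    refine (isClosed_iInter fun m => isClosed_iInter fun _ => ?_).measurableSet
    exact isClosed_le continuous_const (continuous_const.mul (S_cont m))
  obtain ⟨x, hx⟩ := exists_dens hB
  obtain ⟨C2, hC2, h2⟩ := second q h.one_lt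
  obtain ⟨L, hL, h4⟩ := fourth q h.one_lt
  have hL0 : 0 < L := by linarith
  have hν := h.pos 0
  obtain ⟨r₀, hr₀, hd⟩ := dens hBm hx (η := (1 / (8 * L)) ^ 2) (by positivity)
  obtain ⟨r, hr, hr'⟩ := exists_between hr₀
  have hd' := hd r hr hr'
  rw [Real.closedBall_eq_Icc] at hd'
  have hab : x - r ≤ x + r := by linarith
  have hq1 : 0 < q / (q - 1) := div_pos (by linarith [h.one_lt]) (by linarith [h.one_lt])
  obtain ⟨K, hK⟩ : ∃ K, K = 8 * L * (2 * (q / (q - 1)) / ν 0 + 4 * |ξ| * r + 2 * (C2 / ν 0) +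
    (2 * r + 2 / ν 0)) := ⟨_, rfl⟩
  obtain ⟨N, hN⟩ := exists_nat_gt (max (K / r) (max 1 M))
  have hN1 : K / r < N := lt_of_le_of_lt (le_max_left _ _) hN
  have hN2 : (1 : ℝ) < N := lt_of_le_of_lt ((le_max_left _ _).trans (le_max_right _ _)) hN
  have hN3 : (M : ℝ) < N := lt_of_le_of_lt ((le_max_right _ _).trans (le_max_right _ _)) hN
  have hMN : M ≤ N ^ 2 := by
    have : M < N := by exact_mod_cast hN3
    nlinarith
  have hn : (1 : ℝ) ≤ N := hN2.le
  have hn0 : (0 : ℝ) < N := by linarith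
  have c0 : Continuous (S ν (N ^ 2)) := S_cont _
  have cabs : Continuous fun y => |S ν (N ^ 2) y| := c0.abs
  have c2 : Continuous fun y => S ν (N ^ 2) y ^ 2 := c0.pow 2
  have c4 : Continuous fun y => S ν (N ^ 2) y ^ 4 := c0.pow 4
  -- the lower bound
  have hlow : (∫ y in (x - r)..(x + r), S ν (N ^ 2) y ^ 2) / (L * N) -
      (∫ y in (x - r)..(x + r), S ν (N ^ 2) y ^ 4) / (4 * (L * N) ^ 3) ≤
      ∫ y in (x - r)..(x + r), |S ν (N ^ 2) y| := by
    have e1 : (∫ y in (x - r)..(x + r), S ν (N ^ 2) y ^ 2) / (L * N) -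
      (∫ y in (x - r)..(x + r), S ν (N ^ 2) y ^ 4) / (4 * (L * N) ^ 3) =
      ∫ y in (x - r)..(x + r), (S ν (N ^ 2) y ^ 2 / (L * N) -
        S ν (N ^ 2) y ^ 4 / (4 * (L * N) ^ 3)) := by
      rw [intervalIntegral.integral_sub ((c2.div_const _).intervalIntegrable _ _)
        ((c4.div_const _).intervalIntegrable _ _), intervalIntegral.integral_div,
        intervalIntegral.integral_div]
    rw [e1]
    exact intervalIntegral.integral_mono_on hab
      (((c2.div_const _).sub (c4.div_const _)).intervalIntegrable _ _)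
      (cabs.intervalIntegrable _ _) fun y _ => low_pt _ (by positivity)
  -- the upper bound
  have hup : ∫ y in (x - r)..(x + r), |S ν (N ^ 2) y| ≤ 2 * (q / (q - 1)) / ν 0 +
      2 * |ξ| * (2 * r) + (8 * L * N) * ((1 / (8 * L)) ^ 2 * (2 * r)) +
      (∫ y in (x - r)..(x + r), S ν (N ^ 2) y ^ 2) / (8 * L * N) := by
    have ha : 0 < 8 * L * N := by positivity
    have i1 : IntervalIntegrable (fun y => σ * S ν (N ^ 2) y) volume (x - r) (x + r) :=
      (continuous_const.mul c0).intervalIntegrable _ _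
    have i2 : IntervalIntegrable (fun _ : ℝ => 2 * |ξ|) volume (x - r) (x + r) :=
      continuous_const.intervalIntegrable _ _
    have i3 : IntervalIntegrable (fun y => (8 * L * N) * indicator Bᶜ (fun _ => (1 : ℝ)) y)
        volume (x - r) (x + r) := by
      refine IntervalIntegrable.const_mul ?_ _
      rw [intervalIntegrable_iff_integrableOn_Ioc_of_le hab]
      exact (integrable_const (1 : ℝ)).indicator hBm.compl
    have i4 : IntervalIntegrable (fun y => S ν (N ^ 2) y ^ 2 / (8 * L * N)) volume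
      (x - r) (x + r) := (c2.div_const _).intervalIntegrable _ _
    have hpt : ∀ y ∈ Icc (x - r) (x + r), |S ν (N ^ 2) y| ≤ σ * S ν (N ^ 2) y + (2 * |ξ| +
        ((8 * L * N) * indicator Bᶜ (fun _ => (1 : ℝ)) y + S ν (N ^ 2) y ^ 2 / (8 * L * N))) := by
      intro y _
      have hξ := abs_nonneg ξ
      by_cases hy : y ∈ B
      · have hy' : y ∉ Bᶜ := fun h => h hy
        rw [indicator_of_notMem hy', mul_zero, zero_add]
        have h5 : ξ ≤ σ * S ν (N ^ 2) y := by
          rw [hBd] at hy; exact hy _ hMN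
        have h6 := up_pt hσ h5
        have h7 : 0 ≤ S ν (N ^ 2) y ^ 2 / (8 * L * N) := by positivity
        linarith
      · rw [indicator_of_mem hy, mul_one]
        have := up_pt2 (s := S ν (N ^ 2) y) hσ ha
        linarith
    have e1 := intervalIntegral.integral_mono_on hab (cabs.intervalIntegrable _ _)
      (i1.add (i2.add (i3.add i4))) hpt
    refine e1.trans ?_
    have e2 : ∫ y in (x - r)..(x + r), (σ * S ν (N ^ 2) y + (2 * |ξ| +
        ((8 * L * N) * indicator Bᶜ (fun _ => (1 : ℝ)) y + S ν (N ^ 2) y ^ 2 / (8 * L * N)))) =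
        σ * (∫ y in (x - r)..(x + r), S ν (N ^ 2) y) + ((x + r - (x - r)) * (2 * |ξ|) +
          ((8 * L * N) * (∫ y in (x - r)..(x + r), indicator Bᶜ (fun _ => (1 : ℝ)) y) +
          (∫ y in (x - r)..(x + r), S ν (N ^ 2) y ^ 2) / (8 * L * N))) := by
      refine (intervalIntegral.integral_add i1 (i2.add (i3.add i4))).trans ?_
      rw [ii_mul]
      congr 1
      refine (intervalIntegral.integral_add i2 (i3.add i4)).trans ?_
      rw [ii_const]
      congr 1
      refine (intervalIntegral.integral_add i3 i4).trans ?_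
      rw [ii_mul, intervalIntegral.integral_div]
    refine e2.le.trans ?_
    have e3 : σ * (∫ y in (x - r)..(x + r), S ν (N ^ 2) y) ≤ 2 * (q / (q - 1)) / ν 0 := by
      refine (le_abs_self _).trans ?_
      have hσ1 : |σ| = 1 := by rcases hσ with rfl | rfl <;> simp
      rw [abs_mul, hσ1, one_mul]
      exact h.int_S _ _ _
    have e4 : (8 * L * N) * (∫ y in (x - r)..(x + r), indicator Bᶜ (fun _ => (1 : ℝ)) y) ≤
        (8 * L * N) * ((1 / (8 * L)) ^ 2 * (2 * r)) :=
      mul_le_mul_of_nonneg_left ((int_ind hBm hab).trans hd') ha.le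
    linarith
  have hX2 := h2 ν h (x - r) (x + r) (N ^ 2)
  have hX4 := h4 ν h (x - r) (x + r) hab (N ^ 2)
  have e5 : (x + r - (x - r)) / 2 = r := by ring
  have e6 : x + r - (x - r) = 2 * r := by ring
  rw [e5] at hX2
  rw [e6] at hX4
  push_cast at hX2 hX4
  have hfin := fin_ineq hL hr
    (by positivity : 0 ≤ C2 / ν 0) hν hn hX2
    (hX4.trans (le_of_eq (by ring))) hlow hup
  rw [← hK] at hfin
  rw [div_lt_iff₀ hr] at hN1
  linarith

end Pool.Agent.T2h25
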